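import Mathlib
import Pool.Agent.Helper876.CutBody

set_option autoImplicit false

namespace Pool.Agent.Results.MP_2a19ed_co.AdCut

open Matrix MeasureTheory TopologicalSpace Topology
open scoped Pointwise

/-- Euclidean `d`-space. -/
abbrev E (d : ℕ) := EuclideanSpace ℝ (Fin d)

/-- The space of `o`-symmetric convex bodies (with nonempty interior) in `ℝ^d`. It carries the
subspace topology from Mathlib's `ConvexBody`, whose distance is the Hausdorff distance. -/
abbrev Bodies (d : ℕ) :=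
  {C : ConvexBody (E d) //
    (∀ x ∈ (C : Set (E d)), -x ∈ (C : Set (E d))) ∧ (interior (C : Set (E d))).Nonempty}

variable {d : ℕ}

/-- The lattice `L = B ℤ^d` generated by the columns of the matrix `B`. -/
def lattice (B : Matrix (Fin d) (Fin d) ℝ) : Set (E d) :=
  Set.range fun z : Fin d → ℤ => WithLp.toLp 2 (B *ᵥ fun i => (z i : ℝ))

/-- `λ(C, L)`, the minimum of the norm `‖·‖_C` (Mathlib's `gauge`) on `L ∖ {o}`. -/
noncomputable def minimum (C : Bodies d) (B : Matrix (Fin d) (Fin d) ℝ) : ℝ :=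
  sInf (gauge (C.1 : Set (E d)) '' (lattice B \ {0}))

/-- The set `M_L` of minimum vectors of `L` with respect to `C`. -/
def minimumVectors (C : Bodies d) (B : Matrix (Fin d) (Fin d) ℝ) : Set (E d) :=
  {l | l ∈ lattice B ∧ gauge (C.1 : Set (E d)) l = minimum C B}

/-- The kissing number `k(C, L)`, the number of minimum vectors. -/
noncomputable def kissing (C : Bodies d) (B : Matrix (Fin d) (Fin d) ℝ) : ℕ∞ :=
  (minimumVectors C B).encard

/-- The density `λ^d V(C) / (2^d d(L))` of the lattice packing. -/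
noncomputable def density (C : Bodies d) (B : Matrix (Fin d) (Fin d) ℝ) : ℝ :=
  minimum C B ^ d * (volume (C.1 : Set (E d))).toReal / (2 ^ d * |B.det|)

/-- `L = B ℤ^d` is a densest lattice for `C`. -/
def IsDensest (C : Bodies d) (B : Matrix (Fin d) (Fin d) ℝ) : Prop :=
  B.det ≠ 0 ∧ ∀ B' : Matrix (Fin d) (Fin d) ℝ, B'.det ≠ 0 → density C B' ≤ density C B

open Pool.Agent.Helper876 in
lemma minimum_eq (C : Bodies d) {B : Matrix (Fin d) (Fin d) ℝ} (hB : B.det ≠ 0) :
    minimum C B = minN (fun x => gauge (C.1 : Set (E d)) (WithLp.toLp 2 x)) B := by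
  unfold minimum minN
  rw [iInf]
  congr 1
  have hBu : IsUnit B.det := isUnit_iff_ne_zero.2 hB
  ext t
  constructor
  · rintro ⟨_, ⟨⟨z, rfl⟩, hz⟩, rfl⟩
    refine ⟨⟨z, ?_⟩, rfl⟩
    rintro rfl
    apply hz
    rw [Set.mem_singleton_iff]
    have : (fun i => ((0 : Fin d → ℤ) i : ℝ)) = 0 := by funext i; simp
    simp only [this, Matrix.mulVec_zero]
    rfl
  · rintro ⟨⟨z, hz⟩, rfl⟩
    refine ⟨_, ⟨⟨z, rfl⟩, ?_⟩, rfl⟩
    intro h0
    rw [Set.mem_singleton_iff] at h0
    apply hz
    have h1 : B *ᵥ cast z = 0 := by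
      have h3 : B *ᵥ (fun i => (z i : ℝ)) = 0 := by
        simpa using congrArg (WithLp.ofLp (p := 2)) h0
      exact h3
    have h2 : cast z = 0 := by
      have h3 : B⁻¹ *ᵥ (B *ᵥ cast z) = cast z := by
        rw [Matrix.mulVec_mulVec, Matrix.nonsing_inv_mul _ hBu, Matrix.one_mulVec]
      rw [← h3, h1, Matrix.mulVec_zero]
    funext i
    have := congrFun h2 i
    simpa using this

open Pool.Agent.Helper876 in
lemma density_eq (C : Bodies d) {B : Matrix (Fin d) (Fin d) ℝ} (hB : B.det ≠ 0) :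
    density C B = ((volume (C.1 : Set (E d))).toReal / 2 ^ d) *
      (minN (fun x => gauge (C.1 : Set (E d)) (WithLp.toLp 2 x)) B ^ d / |B.det|) := by
  unfold density
  rw [minimum_eq C hB]
  have : |B.det| ≠ 0 := abs_ne_zero.2 hB
  field_simp

lemma volume_pos (C : Bodies d) : 0 < (volume (C.1 : Set (E d))).toReal := by
  refine ENNReal.toReal_pos ?_ C.1.isCompact.measure_lt_top.ne
  have h := isOpen_interior.measure_pos volume C.2.2
  exact (lt_of_lt_of_le h (measure_mono interior_subset)).ne'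

open Pool.Agent.Helper876 in
lemma isDensest_iff (C : Bodies d) (B : Matrix (Fin d) (Fin d) ℝ) :
    IsDensest C B ↔ IsDens (fun x => gauge (C.1 : Set (E d)) (WithLp.toLp 2 x)) B := by
  have hc : 0 < (volume (C.1 : Set (E d))).toReal / 2 ^ d := div_pos (volume_pos C) (by positivity)
  constructor
  · rintro ⟨h1, h2⟩
    refine ⟨h1, fun B' hB' => ?_⟩
    have := h2 B' hB'
    rw [density_eq C hB', density_eq C h1] at this
    exact le_of_mul_le_mul_left this hc
  · rintro ⟨h1, h2⟩
    refine ⟨h1, fun B' hB' => ?_⟩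
    rw [density_eq C hB', density_eq C h1]
    exact mul_le_mul_of_nonneg_left (h2 B' hB') hc.le

open Pool.Agent.Helper876 in
lemma kissing_le (C : Bodies d) {B : Matrix (Fin d) (Fin d) ℝ} (hB : B.det ≠ 0) :
    kissing C B ≤ (Contacts (fun x => gauge (C.1 : Set (E d)) (WithLp.toLp 2 x)) B).encard := by
  unfold kissing
  have hsub : minimumVectors C B ⊆ (fun x : Fin d → ℝ => (WithLp.toLp 2 x : E d)) ''
      (Contacts (fun x => gauge (C.1 : Set (E d)) (WithLp.toLp 2 x)) B) := by
    rintro _ ⟨⟨z, rfl⟩, hl⟩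
    refine ⟨B *ᵥ cast z, ⟨⟨z, rfl⟩, ?_⟩, rfl⟩
    rw [← minimum_eq C hB]
    exact hl
  exact (Set.encard_le_encard hsub).trans (Set.encard_image_le _ _)

open Pool.Agent.Helper876 in
/-- the cut body in Euclidean space -/
noncomputable def cutBody (d : ℕ) {ε : ℝ} (hε : ε ≤ 1 / 4) : ConvexBody (E d) where
  carrier := {x | WithLp.ofLp x ∈ Pe d ε 1}
  convex' := by
    intro x hx y hy a b ha hb hab
    exact Pe_convex ε 1 hx hy ha hb hab
  isCompact' := by
    have h : {x : E d | WithLp.ofLp x ∈ Pe d ε 1} =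
        (fun x : Fin d → ℝ => (WithLp.toLp 2 x : E d)) '' Pe d ε 1 := by
      ext x
      constructor
      · intro hx; exact ⟨WithLp.ofLp x, hx, rfl⟩
      · rintro ⟨y, hy, rfl⟩; exact hy
    rw [h]
    exact (Pe_compact ε 1).image (PiLp.continuous_toLp 2 _)
  nonempty' := ⟨0, small_mem_Pe hε (by
    have : WithLp.ofLp (0 : E d) = (0 : Fin d → ℝ) := rfl
    rw [this, norm_zero]; norm_num)⟩

lemma norm_ofLp_le (x : E d) : ‖(WithLp.ofLp x : Fin d → ℝ)‖ ≤ ‖x‖ := by
  rw [pi_norm_le_iff_of_nonneg (norm_nonneg _)]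
  intro i
  exact PiLp.norm_apply_le x i

/-- Negative answer to Q1, for every dimension `d ≥ 2`: the set of bodies having a densest lattice,
and all of whose densest lattices have kissing number at most `d (d + 1)`, is not meager. -/
theorem result (d : ℕ) (hd : 2 ≤ d) :
    ¬ IsMeagre {C : Bodies d | (∃ B, IsDensest C B) ∧
      ∀ B, IsDensest C B → kissing C B ≤ (d * (d + 1) : ℕ) ∧ kissing C B ≠ (2 * d ^ 2 : ℕ)} := by
  classical
  obtain ⟨ε, s, hε0, hε1, hs0, hs1, hmain⟩ := Pool.Agent.Helper876.abstract_main d (by omega)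
  set C₀ : ConvexBody (E d) := cutBody d hε1 with hC₀
  have hmemC₀ : ∀ x : E d, x ∈ (C₀ : Set (E d)) ↔ WithLp.ofLp x ∈ Pool.Agent.Helper876.Pe d ε 1 :=
    fun x => Iff.rfl
  set r : ℝ := 1 / (2 * (d + 1)) with hr
  have hr0 : 0 < r := by positivity
  have hball : Metric.closedBall (0 : E d) r ⊆ (C₀ : Set (E d)) := by
    intro x hx
    rw [mem_closedBall_zero_iff] at hx
    rw [hmemC₀]
    apply Pool.Agent.Helper876.small_mem_Pe hε1
    calc 2 * ((d:ℝ) + 1) * ‖(WithLp.ofLp x : Fin d → ℝ)‖ ≤ 2 * (d + 1) * r := by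
          gcongr
          exact (norm_ofLp_le x).trans hx
      _ = 1 := by rw [hr]; field_simp
  have hsymm₀ : ∀ x ∈ (C₀ : Set (E d)), -x ∈ (C₀ : Set (E d)) := by
    intro x hx
    rw [hmemC₀] at *
    exact Pool.Agent.Helper876.Pe_symm hx
  have hint₀ : (interior (C₀ : Set (E d))).Nonempty :=
    ⟨0, interior_mono (Metric.ball_subset_closedBall.trans hball) (by
      rw [Metric.isOpen_ball.interior_eq]; exact Metric.mem_ball_self hr0)⟩
  let X₀ : Bodies d := ⟨C₀, hsymm₀, hint₀⟩
  have : BaireSpace (Bodies d) := Pool.Agent.Helper876.baireSymBody (V := E d)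
  have hopen := not_isMeagre_of_isOpen (Metric.isOpen_ball (x := X₀) (ε := s * r))
    ⟨X₀, Metric.mem_ball_self (by positivity)⟩
  intro hcon
  apply hopen
  refine IsMeagre.mono ?_ hcon
  intro C hC
  have hdist : dist C₀ C.1 < s * r := by
    rw [Metric.mem_ball, dist_comm] at hC
    exact hC
  obtain ⟨hin, hout⟩ := Pool.Agent.Helper876.near hball hr0 hs0 (by linarith) hdist
  -- the norm of `C`
  have hnhds : (C.1 : Set (E d)) ∈ 𝓝 (0 : E d) := by
    have h1 : Metric.closedBall (0 : E d) ((1 - s) * r) ⊆ (C.1 : Set (E d)) := by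
      intro x hx
      apply hin
      have h1s : 0 < 1 - s := by linarith
      refine ⟨(1 - s)⁻¹ • x, hball ?_, ?_⟩
      · rw [mem_closedBall_zero_iff] at hx ⊢
        rw [norm_smul, norm_inv, Real.norm_of_nonneg h1s.le, inv_mul_le_iff₀ h1s]
        exact hx
      · simp only
        rw [smul_smul, mul_inv_cancel₀ h1s.ne', one_smul]
    have h1s : 0 < (1 - s) * r := mul_pos (by linarith) hr0
    exact Filter.mem_of_superset (Metric.closedBall_mem_nhds _ h1s) h1
  have hG : Pool.Agent.Helper876.IsG d ε s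
      (fun x => gauge (C.1 : Set (E d)) (WithLp.toLp 2 x)) := by
    refine ⟨?_, ?_, ?_, ?_⟩
    · intro c x hc
      show gauge (C.1 : Set (E d)) (WithLp.toLp 2 (c • x)) = c * gauge _ (WithLp.toLp 2 x)
      rw [WithLp.toLp_smul, gauge_smul_of_nonneg hc, smul_eq_mul]
    · exact (continuous_gauge C.1.convex hnhds).comp (PiLp.continuous_toLp 2 _)
    · intro x hx
      show gauge (C.1 : Set (E d)) (WithLp.toLp 2 x) < 1
      rw [gauge_lt_one_iff_mem_interior C.1.convex hnhds]
      rw [mem_interior]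
      refine ⟨{y | WithLp.ofLp y ∈ Pool.Agent.Helper876.Ue d ε (1 - s)}, ?_, ?_, hx⟩
      · intro y hy
        apply hin
        have h1s : 0 < 1 - s := by linarith
        refine ⟨(1 - s)⁻¹ • y, ?_, ?_⟩
        · rw [hmemC₀]
          have h2 := Pool.Agent.Helper876.smul_mem_Pe (inv_nonneg.2 h1s.le)
            (Pool.Agent.Helper876.Ue_sub_Pe _ _ hy)
          rw [inv_mul_cancel₀ h1s.ne'] at h2
          exact h2
        · simp only
          rw [smul_smul, mul_inv_cancel₀ h1s.ne', one_smul]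
      · exact (Pool.Agent.Helper876.Ue_open ε (1 - s)).preimage (PiLp.continuous_ofLp 2 _)
    · intro x hx
      have h1 : (WithLp.toLp 2 x : E d) ∈ (C.1 : Set (E d)) := by
        have := (gauge_le_one_iff_mem_closure C.1.convex hnhds (x := (WithLp.toLp 2 x : E d))).1 hx
        rwa [C.1.isClosed.closure_eq] at this
      obtain ⟨y, hy, hyx⟩ := hout h1
      rw [hmemC₀] at hy
      have h2 := Pool.Agent.Helper876.smul_mem_Pe (by linarith : (0:ℝ) ≤ 1 + s) hy
      rw [mul_one] at h2
      have h3 : x = (1 + s) • (WithLp.ofLp y : Fin d → ℝ) := by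
        have := congrArg (WithLp.ofLp (p := 2)) hyx
        simpa using this.symm
      rw [h3]
      exact h2
  obtain ⟨⟨B₀, hB₀⟩, hall⟩ := hmain _ hG
  refine ⟨⟨B₀, (isDensest_iff C B₀).2 hB₀⟩, ?_⟩
  intro B hB
  have hB' := (isDensest_iff C B).1 hB
  have hk : kissing C B ≤ (d * (d + 1) : ℕ) := (kissing_le C hB.1).trans (hall B hB')
  refine ⟨hk, ?_⟩
  intro heq
  rw [heq] at hk
  have h5 : 2 * d ^ 2 ≤ d * (d + 1) := by exact_mod_cast hk
  nlinarith

end Pool.Agent.Results.MP_2a19ed_co.AdCut
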